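import Mathlib
import Pool.Agent.Q89.LT.TI
import Pool.Agent.Q89.LT.Fin

/-!
# A separable nuclear stably finite C*-algebra which is not locally of type I

The algebra `A` of continuous functions from `[0, 1]` to the Cuntz algebra `O₂` which are scalar at
`0` (the unitised cone over `O₂`) is separable, nuclear and stably finite, and it contains elements
`a`, `b` such that no C*-subalgebra of type I (unital or not) has elements within `1/10` of `a` and
of `b`. So the answer to Q1 is negative.

Proof of the last point. Let `B` be such a subalgebra. The closure `D` of its image under the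
evaluation at `1` contains two elements close to the two generating isometries of `O₂`; so it is
unital. Let `M` be a maximal ideal of `D` and `ρ` an irreducible representation of `D` which
vanishes on `M`. It is irreducible on `B`. If its image contained the compact operators, then, `M`
being maximal, `1` would have finite rank, and a finite dimensional Hilbert space would have two
almost isometric operators with almost orthogonal ranges.
-/

set_option autoImplicit false

open scoped CStarAlgebra ComplexOrder

namespace Pool.Agent.Results.MP_b9f29c_an.ConeCounterexample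

/-- A C*-algebra is nuclear: the identity is a point-norm limit of compositions
`A → Mₙ(ℂ) → A` of completely positive contractions. -/
def IsNuclear (A : Type) [CStarAlgebra A] [PartialOrder A] [StarOrderedRing A] : Prop :=
  ∀ (F : Finset A) (ε : ℝ), 0 < ε → ∃ (n : ℕ) (φ : A →CP CStarMatrix (Fin n) (Fin n) ℂ)
    (ψ : CStarMatrix (Fin n) (Fin n) ℂ →CP A),
    (∀ x, ‖φ x‖ ≤ ‖x‖) ∧ (∀ y, ‖ψ y‖ ≤ ‖y‖) ∧ ∀ x ∈ F, ‖ψ (φ x) - x‖ < ε

/-- A unital C*-algebra is stably finite: every isometry in a matrix algebra over it is unitary. -/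
def IsStablyFinite (A : Type) [CStarAlgebra A] : Prop :=
  ∀ (n : ℕ) (v : Matrix (Fin n) (Fin n) A), star v * v = 1 → v * star v = 1

/-- A representation of a *-algebra on a Hilbert space is irreducible: it is non-zero and has no
closed invariant subspaces except `0` and the whole space. -/
def IsIrreducible {B K : Type} [NonUnitalRing B] [StarRing B] [Module ℂ B]
    [NormedAddCommGroup K] [InnerProductSpace ℂ K] [CompleteSpace K]
    (π : B →⋆ₙₐ[ℂ] (K →L[ℂ] K)) : Prop :=
  π ≠ 0 ∧ ∀ U : Submodule ℂ K, IsClosed (U : Set K) → (∀ b, ∀ x ∈ U, π b x ∈ U) → U = ⊥ ∨ U = ⊤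

/-- A C*-algebra is of type I: the image of every irreducible representation contains all compact
operators. -/
def IsTypeI (B : Type) [NonUnitalRing B] [StarRing B] [Module ℂ B] : Prop :=
  ∀ (K : Type) [NormedAddCommGroup K] [InnerProductSpace ℂ K] [CompleteSpace K]
    (π : B →⋆ₙₐ[ℂ] (K →L[ℂ] K)), IsIrreducible π →
    ∀ T : K →L[ℂ] K, IsCompactOperator T → ∃ b, π b = T

/-- `A` is locally approximable by type I C*-algebras: for every finite subset `F` of `A` and
every `ε > 0` there is a C*-subalgebra `B` (a norm closed *-subalgebra, with or without unit) of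
type I such that every element of `F` has distance less than `ε` from `B`. -/
def LocallyTypeI (A : Type) [CStarAlgebra A] : Prop :=
  ∀ (F : Finset A) (ε : ℝ), 0 < ε → ∃ B : NonUnitalStarSubalgebra ℂ A,
    IsClosed (B : Set A) ∧ IsTypeI B ∧ ∀ x ∈ F, ∃ y ∈ B, ‖x - y‖ < ε

/-! ### Proofs -/

open Pool.Agent.W658.Cone

/-- the cone elements over the generators of the Cuntz algebra -/
noncomputable def gen (c : Bool) : CA :=
  ⟨el ⟨fun t => (t : ℝ), continuous_subtype_val⟩ (s c), el_mem (by
    have h := S_mem_O2 [c]
    rwa [S_cons, S_nil, mul_one] at h) rfl⟩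

theorem ev_gen (c : Bool) : ev 1 (gen c) = s c := by
  show (((1 : unitInterval) : ℝ) : ℂ) • s c = s c
  simp

theorem norm_ev (f : CA) : ‖ev 1 f‖ ≤ ‖f‖ := (f : CB).norm_coe_le_norm 1

theorem not_typeI (B : NonUnitalStarSubalgebra ℂ CA) (y z : CA) (hy : y ∈ B) (hz : z ∈ B)
    (hy1 : ‖gen false - y‖ ≤ 1 / 10) (hz1 : ‖gen true - z‖ ≤ 1 / 10) : ¬ IsTypeI B := by
  have hnt : Nontrivial BH := ⟨1, 0, by
    intro h
    have h4 : (1 : BH) xi = 0 := by rw [h]; rfl
    have h5 : xi = 0 := h4
    have h6 := norm_xi
    rw [h5, norm_zero] at h6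
    exact zero_ne_one h6⟩
  have h := Q89.LT.not_typeI ((ev 1).comp (NonUnitalStarSubalgebraClass.subtype B)) (s false) (s true)
    (star_s_mul_s_self false) (star_s_mul_s_self true) (star_s_mul_s_ne (by decide)) ⟨y, hy⟩ ⟨z, hz⟩
    (by
      show ‖ev 1 y - s false‖ ≤ 1 / 10
      rw [norm_sub_rev, ← ev_gen, ← map_sub]
      exact (norm_ev _).trans hy1)
    (by
      show ‖ev 1 z - s true‖ ≤ 1 / 10
      rw [norm_sub_rev, ← ev_gen, ← map_sub]
      exact (norm_ev _).trans hz1)
  exact h

/-- **Theorem (negative answer to Q1).** There is a unital C*-algebra `A` which is separable, nuclear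
and stably finite, but not locally approximable by type I C*-algebras; indeed there are two elements
`a`, `b` of `A` such that no norm closed *-subalgebra of type I has elements at distance at most
`1/10` from `a` and from `b`. -/
theorem result : ∃ (A : Type) (_ : CStarAlgebra A) (_ : PartialOrder A) (_ : StarOrderedRing A),
    TopologicalSpace.SeparableSpace A ∧ IsNuclear A ∧ IsStablyFinite A ∧ ¬ LocallyTypeI A ∧
    ∃ a b : A, ∀ B : NonUnitalStarSubalgebra ℂ A, IsClosed (B : Set A) →
      (∃ y ∈ B, ‖a - y‖ ≤ 1 / 10) → (∃ z ∈ B, ‖b - z‖ ≤ 1 / 10) → ¬ IsTypeI B := by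
  refine ⟨CA, inferInstance, inferInstance, inferInstance, separable_CA, nuclear_CA,
    fun n v hv => Q89.LT.stablyFinite n v hv, ?_, gen false, gen true, ?_⟩
  · intro h
    classical
    obtain ⟨B, -, hB, hF⟩ := h {gen false, gen true} (1 / 10) (by norm_num)
    obtain ⟨y, hy, hy1⟩ := hF (gen false) (by simp)
    obtain ⟨z, hz, hz1⟩ := hF (gen true) (by simp)
    exact not_typeI B y z hy hz hy1.le hz1.le hB
  · rintro B - ⟨y, hy, hy1⟩ ⟨z, hz, hz1⟩
    exact not_typeI B y z hy hz hy1 hz1

end Pool.Agent.Results.MP_b9f29c_an.ConeCounterexample
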